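import Pool.Agent.W659.SA.Defs

set_option autoImplicit false

/-!
# Task SA-UR: elements of a finitely generated subgroup are units at almost all places
-/

namespace Pool.Agent.W605.SA.UR

open NumberField Pool.Agent.H901R3.MS

theorem int_ne {K : Type} [Field K] [NumberField K] (x : 𝓞 K) (hx : x ≠ 0) :
    ∃ B : ℕ, ∀ p : ℕ, p.Prime → B ≤ p → ∀ (k : Type) [Field k] [CharP k p] (v : Place K k),
      (∀ x : 𝓞 K, (x : K) ∈ v.A) → v.r (x : K) ≠ 0 := by
  have halg : IsAlgebraic ℤ x := (RingOfIntegers.isIntegral x).isAlgebraic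
  obtain ⟨n, hn, y, hy⟩ := halg.exists_nonzero_dvd (mem_nonZeroDivisors_of_ne_zero hx)
  refine ⟨n.natAbs + 1, fun p hp hB k _ _ v hv h0 => ?_⟩
  have h1 : ((n : ℤ) : K) = (x : K) * (y : K) := by
    have := congrArg (algebraMap (𝓞 K) K) hy
    simpa using this
  have h2 : v.r ((n : ℤ) : K) = 0 := by
    rw [h1, v.r_mul (hv x) (hv y), h0, zero_mul]
  rw [v.r_int, CharP.intCast_eq_zero_iff k p n] at h2
  have h3 := Int.le_of_dvd (show (0 : ℤ) < (n.natAbs : ℤ) by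
    have : 0 < n.natAbs := Int.natAbs_pos.2 hn
    exact_mod_cast this) (Int.dvd_natAbs.2 h2)
  have h4 : p ≤ n.natAbs := by exact_mod_cast h3
  omega

theorem unit_ne {K : Type} [Field K] [NumberField K] (g : Kˣ) :
    ∃ B : ℕ, ∀ p : ℕ, p.Prime → B ≤ p → ∀ (k : Type) [Field k] [CharP k p] (v : Place K k),
      (∀ x : 𝓞 K, (x : K) ∈ v.A) → (g : K) ∈ v.A ∧ v.r (g : K) ≠ 0 := by
  obtain ⟨x, y, hy, hxy⟩ := IsFractionRing.div_surjective (𝓞 K) (g : K)
  have hy0 : y ≠ 0 := nonZeroDivisors.ne_zero hy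
  have hx0 : x ≠ 0 := by
    rintro rfl
    rw [map_zero, zero_div] at hxy
    exact g.ne_zero hxy.symm
  obtain ⟨B1, h1⟩ := int_ne x hx0
  obtain ⟨B2, h2⟩ := int_ne y hy0
  refine ⟨max B1 B2, fun p hp hB k _ _ v hv => ?_⟩
  have e1 := h1 p hp ((le_max_left _ _).trans hB) k v hv
  have e2 := h2 p hp ((le_max_right _ _).trans hB) k v hv
  rw [← hxy]
  refine ⟨v.div_mem (hv x) e2, ?_⟩
  have e3 := v.r_div (hv x) e2
  rw [e3]
  exact div_ne_zero e1 e2

theorem main : Pool.Agent.W659.SA.S_UR := by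
  intro K _ _ Γ hΓ
  classical
  obtain ⟨S, hS⟩ := hΓ
  choose B hB using fun g : Kˣ => unit_ne (K := K) g
  refine ⟨S.sup B, fun p hp hle k _ _ v hv g hg => ?_⟩
  rw [← hS] at hg
  induction hg using Subgroup.closure_induction with
  | mem g hg => exact hB g p hp ((Finset.le_sup (f := B) hg).trans hle) k v hv
  | one => exact ⟨by simp, by simp⟩
  | mul g h _ _ ihg ihh =>
    refine ⟨by push_cast; exact v.A.mul_mem ihg.1 ihh.1, ?_⟩
    push_cast
    rw [v.r_mul ihg.1 ihh.1]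
    exact mul_ne_zero ihg.2 ihh.2
  | inv g _ ih =>
    rw [Units.val_inv_eq_inv_val]
    refine ⟨v.inv_mem ih.2, ?_⟩
    rw [v.r_inv ih.2]
    exact inv_ne_zero ih.2

end Pool.Agent.W605.SA.UR
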